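import Pool.Agent.H.MP_209e83_co.Main

set_option autoImplicit false

namespace Pool.Agent.Results.MP_209e83_co.Full

open Pool.Agent.H.MP_209e83_co

/-- The type B Eulerian transformation preserves log-convexity. -/
theorem result : ∀ x : ℕ → ℝ, LogConvex x →
    LogConvex (fun n => ∑ k ∈ Finset.range (n + 1), (typeB n k : ℝ) * x k) :=
  main

end Pool.Agent.Results.MP_209e83_co.Full
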